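import Pool.Agent.Lib.TG_h26.FinB

/-!
# Resolution of singularities and principalization of ideals for varieties of dimension `n` over
algebraically closed fields of large characteristic
-/

open AlgebraicGeometry CategoryTheory

/-- Let `k` be an algebraically closed field of characteristic `p` and `X` an integral scheme,
locally of finite type and quasi-compact over `k`, of dimension `n` with
`(n + 7) ^ 3 * (2 * n * (n + 2)) ^ n * (n!) ^ 2 < p`. Then for every nonzero ideal sheaf `I` of `X`
there are an integral scheme `Y`, smooth over `k`, and a proper morphism `π : Y ⟶ X`, an isomorphism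
over a dense open subset of `X`, such that for every closed point `y` of `Y` the ideal generated by
`I` in the local ring of `Y` at `y` is generated by a monomial in `n` generators of the maximal
ideal. For `I = ⊤` this is resolution of singularities. The dimension of `X` is the transcendence
degree of its function field over `k`, embedded by `consts f`. -/
theorem Pool.Agent.Results.MP_b525bf_ag.GlobalResolution.result :
    ∀ (n p : ℕ), (n + 7) ^ 3 * (2 * n * (n + 2)) ^ n * n.factorial ^ 2 < p → p.Prime →
    ∀ (k : Type) [Field k] [IsAlgClosed k] [CharP k p]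
      (X : Scheme.{0}) (f : X ⟶ Spec (CommRingCat.of k)) (_ : IsIntegral X),
      LocallyOfFiniteType f → QuasiCompact f →
      @Algebra.trdeg k X.functionField _ _ (Pool.Agent.LU2G.consts f).toAlgebra = n →
      ∀ I : X.IdealSheafData, I ≠ ⊥ →
      ∃ (Y : Scheme.{0}) (π : Y ⟶ X), IsIntegral Y ∧ IsProper π ∧
        AlgebraicGeometry.Smooth (π ≫ f) ∧
        (∃ U : X.Opens, Dense (U : Set X) ∧ IsIso (π ∣_ U)) ∧
        ∀ y : Y, IsClosed {y} → ∃ (t : Fin n → Y.presheaf.stalk y) (e : Fin n → ℕ),
          Ideal.span (Set.range t) = IsLocalRing.maximalIdeal (Y.presheaf.stalk y) ∧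
          ∀ (U : X.affineOpens) (hU : π y ∈ U.1),
            (I.ideal U).map (X.presheaf.germ U.1 (π y) hU ≫ π.stalkMap y).hom =
              Ideal.span {∏ i, t i ^ e i} :=
  fun n p hb hp k _ _ _ X f hX hf hq hn I hI =>
    Pool.Agent.TG26.principalizationB n p hb hp k X f hX hf hq hn I hI
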