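import Pool.Agent.Lib.MP_b525bf_ag_SG.Stmt

/-!
# Equivariant resolution of singularities for actions of reductive groups of complexity at most one, in
positive characteristic
-/

open Pool.Agent Pool.Agent.MP_b525bf_ag_ES Pool.Agent.MP_b525bf_ag_SG

/-- Let `k` be an algebraically closed field of characteristic `p > 0` and `X = Spec A` an affine
variety over `k`, of any dimension, with a rational action of one of the following groups `G`, with
a Borel subgroup `B`:
* a geometrically reductive group `G` of matrices over `k` with root group data (by the theorems of
  Haboush and Chevalley every connected reductive group over `k`), for a reduced root datum `P` with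
  a base `b`;
* the group `SL_(d 0 + 1)(k) × ⋯ × SL_(d (m - 1) + 1)(k) × (k^*)^r` (here geometric reductivity is not
  a hypothesis).
Assume that the field of the rational functions on `X` that are invariant under `B` has transcendence
degree at most one over `k` (complexity at most one). Then `X` has an equivariant resolution of
singularities: the blowing up of `X` in some `G`-stable ideal `I ≠ 0` is smooth over `k`; and if `A` is
the homogeneous coordinate ring of the projective variety `Proj A`, and the torus of the grading acts
through `G`, then `Proj A` has a resolution of singularities. -/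
theorem Pool.Agent.Results.MP_b525bf_ag.GroupActions.result (p : ℕ) [Fact p.Prime] (k : Type)
    [Field k] [IsAlgClosed k] [CharP k p] (A : Type) [CommRing A] [IsDomain A] [Algebra k A]
    [Algebra.FiniteType k A] :
    (∀ {N n : ℕ} {R : Type} [Finite R] {P : RootDatum R (Fin n → ℤ) (Fin n → ℤ)} [P.IsReduced]
      {b : P.Base} (G : Subgroup (GL (Fin N) k)) (D : RootGroupData P b G)
      (ρ : G →* (A ≃ₐ[k] A)), GeomReductive G → IsRational ρ →
      Algebra.trdeg k (invField (D.borel.map ρ)) ≤ 1 → EquivariantResolution k ρ) ∧
    ∀ {m : ℕ} (d : Fin m → ℕ) (r : ℕ) (ρ : MP_b525bf_ag_SA.SLA k d r →* (A ≃ₐ[k] A)),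
      MP_b525bf_ag_SA.IsRational ρ →
      Algebra.trdeg k (invField ((MP_b525bf_ag_SA.borel k d r).map ρ)) ≤ 1 →
      EquivariantResolution k ρ :=
  ⟨fun G D ρ hG hρ hc => equivariantResolution_of_reductive p k A G hG D ρ hρ hc,
    fun d r ρ hρ hc => equivariantResolution_of_typeA p k A d r ρ hρ hc⟩
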