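import Pool.Agent.Lib.MP_b525bf_ag_TS.FinalZ2

/-!
# Resolution of singularities for purely inseparable equations with separated differentials
-/

open Pool.Agent.MP_b525bf_ag Pool.Agent.MP_b525bf_ag_TS

/-- Let `k` be an algebraically closed field of characteristic `p`. The variables are `n` blocks,
the `i`-th block with `s i ≤ 2` variables, and `m` further variables `t_1, ..., t_m`; `K` is the
field of rational functions in all variables, and `incT m i` is the inclusion of the field of
rational functions in the variables of the `i`-th block into `K`. A product function with exponents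
`e` is `t_1 ^ e_1 ⋯ t_m ^ e_m` times nonzero rational functions in the variables of single blocks.
Let `f_1, ..., f_r` be polynomials in all variables with linearly independent differentials
(over `K`), and assume that `df_j` is a linear combination over `K` of forms `θ_1, ..., θ_r`,
where every `θ_t` is a combination with constant coefficients of forms of two kinds:
`μ_i ω_i` for `i = 1, ..., n`, with `μ_i` a product function and `ω_i = l_i dg_i` a closed form,
`l_i` and `g_i` being rational functions in the variables of the `i`-th block, and `ρ_j dφ_j` for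
`j = 1, ..., N`, with `ρ_j` and `φ_j` product functions, the exponents of `φ_1, ..., φ_N` being
linearly independent modulo `p`. Then the variety `z_1 ^ p = f_1, ..., z_r ^ p = f_r` has a
resolution of singularities. -/
theorem Pool.Agent.Results.MP_b525bf_ag.SeparatedEquations.result (p : ℕ) [Fact p.Prime]
    (k : Type) [Field k] [IsAlgClosed k] [CharP k p] (n m : ℕ) (s : Fin n → ℕ)
    (hs : ∀ i, s i ≤ 2) (r : ℕ) (f : Fin r → MvPolynomial (((i : Fin n) × Fin (s i)) ⊕ Fin m) k)
    (hfl : ∀ a : Fin r → FractionRing (MvPolynomial (((i : Fin n) × Fin (s i)) ⊕ Fin m) k),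
      (∀ D : Derivation k (FractionRing (MvPolynomial (((i : Fin n) × Fin (s i)) ⊕ Fin m) k))
        (FractionRing (MvPolynomial (((i : Fin n) × Fin (s i)) ⊕ Fin m) k)),
          ∑ j, a j * D (algebraMap _ _ (f j)) = 0) → a = 0)
    (l g : ∀ i, FractionRing (MvPolynomial (Fin (s i)) k))
    (hc : ∀ i, ∀ D D' : Derivation k (FractionRing (MvPolynomial (Fin (s i)) k))
        (FractionRing (MvPolynomial (Fin (s i)) k)),
      D (l i) * D' (g i) = D' (l i) * D (g i))
    (μ : Fin n → FractionRing (MvPolynomial (((i : Fin n) × Fin (s i)) ⊕ Fin m) k))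
    (hμ : ∀ i, ∃ e, IsProdFun e (μ i)) (N : ℕ)
    (ρ φ : Fin N → FractionRing (MvPolynomial (((i : Fin n) × Fin (s i)) ⊕ Fin m) k))
    (hρ : ∀ j, ∃ e, IsProdFun e (ρ j)) (A : Fin N → Fin m → ℤ) (hφ : ∀ j, IsProdFun (A j) (φ j))
    (hA : LinearIndependent k fun j t => (A j t : k))
    (ν : Fin r → Fin r → FractionRing (MvPolynomial (((i : Fin n) × Fin (s i)) ⊕ Fin m) k))
    (c : Fin r → Fin n → k) (c' : Fin r → Fin N → k)
    (hf : ∀ j, ∀ D : Derivation k
        (FractionRing (MvPolynomial (((i : Fin n) × Fin (s i)) ⊕ Fin m) k))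
        (FractionRing (MvPolynomial (((i : Fin n) × Fin (s i)) ⊕ Fin m) k)),
      D (algebraMap _ _ (f j)) = ∑ t, ν j t *
        (∑ i, algebraMap k _ (c t i) * (μ i * (incT m i (l i) * D (incT m i (g i)))) +
          ∑ i, algebraMap k _ (c' t i) * (ρ i * D (φ i)))) :
    HasResolution k (MvPolynomial (Fin r) (MvPolynomial (((i : Fin n) × Fin (s i)) ⊕ Fin m) k) ⧸
      Ideal.span (Set.range fun j : Fin r =>
        (MvPolynomial.X j ^ p - MvPolynomial.C (f j) :
          MvPolynomial (Fin r) (MvPolynomial (((i : Fin n) × Fin (s i)) ⊕ Fin m) k)))) := by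
  refine hasResolution_TU p n m s hs f ?_ l g hc μ hμ ρ φ hρ A hφ hA ν c c' hf
  rw [Fintype.linearIndependent_iff]
  intro a ha j
  refine congrFun (hfl a fun D => ?_) j
  have h1 := congrArg (fun φ => φ D) ha
  simp only [LinearMap.sum_apply, LinearMap.smul_apply, smul_eq_mul, LinearMap.zero_apply] at h1
  rw [← h1]
  refine Finset.sum_congr rfl fun i _ => ?_
  change _ = a i * (1 * D _)
  rw [one_mul]
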