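import Pool.Agent.Lib.TW.Small

/-!
# Proper birational modifications smooth at the centres of valuation rings all of whose rank one
components are small
-/

open AlgebraicGeometry CategoryTheory
open Pool.Agent.LU2G Pool.Agent.LU2H Pool.Agent.TW

/-- Let `k` be a perfect field of characteristic `p`, `X` an integral scheme locally of finite type
over `k`, and `V_1, ..., V_m` valuation rings of the function field `K` of `X`, of any rank and with
any residue fields. Assume that for every `i` the field `K` contains a finitely generated extension
`F_i` of `k`, dense in `K` for `V_i`, such that `K` is separably generated over `F_i` (for example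
`F_i = K`) and all rank one components of the valuation ring `V_i ∩ F_i` of `F_i` are small: see
`SmallDefectComponents`. A component, of dimension `d`, residue degree `q` and rational rank `r`, is
small if `d ≤ q + r + 1`, or if `k` is algebraically closed and
* `(d + 1) * 2 ^ (3 * d - 1) * (d!) ^ 2 < p`; or
* `q = 0`, and `d ≤ 4`, or `d ≤ r + 2`, or `d ≤ r + 3` and the `p`-multiples have index `p ^ r` in
  the value group of the component; or
* it is approximable: see `ApprComponent`.
Assume that every `V_i` has a centre on `X`: the generic point `Spec K ⟶ X` extends to a morphism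
`c_i : Spec V_i ⟶ X`. Then there is a proper birational morphism `π : Y ⟶ X` from an integral
scheme, an isomorphism over every open subset `W` such that `X` is smooth over `k` at the centres
that lie in `W` of all valuation rings `V' ≠ K` containing some `V_i` (so over the smooth locus of
`X`), such that every `c_i` lifts to `Y` and `Y` is smooth over `k` at the centre of each `V_i`. -/
theorem Pool.Agent.Results.MP_b525bf_ag.SmallDefects.result (p : ℕ) [Fact p.Prime]
    (k : Type) [Field k] [PerfectField k] [CharP k p] (X : Scheme.{0}) [IsIntegral X]
    (f : X ⟶ Spec (CommRingCat.of k)) [LocallyOfFiniteType f] (m : ℕ)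
    (V : Fin m → ValuationSubring X.functionField)
    (hV : ∀ i, DenseSmallDefects p (consts f) (V i))
    (c : ∀ i, Spec (CommRingCat.of (V i)) ⟶ X)
    (hc : ∀ i, Spec.map (CommRingCat.ofHom (algebraMap (V i) X.functionField)) ≫
      c i = X.fromSpecStalk (genericPoint X)) :
    ∃ (Y : Scheme.{0}) (π : Y ⟶ X), IsIntegral Y ∧ IsProper π ∧
      (∀ W : X.Opens, (∀ (i : Fin m) (V' : ValuationSubring X.functionField) (h : V i ≤ V'),
        V' ≠ ⊤ → (coarser h ≫ c i) (IsLocalRing.closedPoint V') ∈ W →
          IsSmoothAt f ((coarser h ≫ c i) (IsLocalRing.closedPoint V'))) → IsIso (π ∣_ W)) ∧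
      ∀ i, ∃ c' : Spec (CommRingCat.of (V i)) ⟶ Y, c' ≫ π = c i ∧
        IsSmoothAt (π ≫ f) (c' (IsLocalRing.closedPoint (V i))) :=
  exists_smooth_centres_small p k X f m V hV c hc
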